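import Pool.Agent.Helper68.T3.GoalsA

/-!
# Project T3 (MP_a41896_nt), packet CARD3 (helper32): the count
-/

set_option autoImplicit false

namespace Pool.Agent.Helper32.T3.CARD3

open Pool.Agent.Helper68.VN Pool.Agent.Helper68.T3
open Pool.Agent.Helper77.SGC (N0)

theorem card_Ax (σ : Type) [Fintype σ] (M e : ℕ) :
    Nat.card (Ax σ M e) = (4 ^ e * (M + 1)) ^ Fintype.card σ := by
  unfold Ax
  rw [Nat.card_pi]
  simp [Nat.card_prod]

theorem N0_le (M e : ℕ) : N0 M e + 1 ≤ 4 ^ e * (2 * M + 2) := by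
  have h : 1 ≤ 4 ^ e := Nat.one_le_pow _ _ (by norm_num)
  unfold N0
  nlinarith

/-- the number of unknowns -/
theorem card_unk {σ : Type} [Fintype σ] [DecidableEq σ] (M h0 : ℕ) (i' i0 : σ) (e : Fin 2 → ℕ)
    (hne : i0 ≠ i') (hh : 1 ≤ h0) :
    (4 ^ e 0 * (M + 1)) ^ Fintype.card σ * ((M + 1) ^ Fintype.card σ *
      (4 ^ e 1) ^ (Fintype.card σ - 1)) ≤
      Nat.card {α : Ix σ 2 M 1 e // Sup3 i' i0 h0 α} * h0 := by
  classical
  obtain ⟨q, hq⟩ : ∃ q, q = 4 ^ e 1 := ⟨_, rfl⟩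
  have hq1 : 1 ≤ q := by
    rw [hq]
    exact Nat.one_le_pow _ _ (by norm_num)
  obtain ⟨T, hT⟩ : ∃ T : σ → Finset (Fin (4 ^ e 1)), T = fun i =>
      if i = i' then Finset.univ.filter (fun l : Fin (4 ^ e 1) => l.val = 0)
      else if i = i0 then Finset.univ.filter (fun l : Fin (4 ^ e 1) => l.val * h0 < 4 ^ e 1)
      else Finset.univ := ⟨_, rfl⟩
  obtain ⟨S, hS⟩ : ∃ S : Finset (σ → Fin (4 ^ e 1) × Fin (M + 1)), S =
      Fintype.piFinset fun i => T i ×ˢ (Finset.univ : Finset (Fin (M + 1))) := ⟨_, rfl⟩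
  have hmem : ∀ y ∈ S, (y i').1.val = 0 ∧ (y i0).1.val * h0 < 4 ^ e 1 := by
    intro y hy
    rw [hS, Fintype.mem_piFinset] at hy
    have h1 := hy i'
    have h2 := hy i0
    rw [hT] at h1 h2
    simp only [Finset.mem_product, Finset.mem_univ, and_true, if_true, hne, if_false,
      Finset.mem_filter, true_and] at h1 h2
    exact ⟨h1, h2⟩
  -- the injection
  let f : Ax σ M (e 0) × S → {α : Ix σ 2 M 1 e // Sup3 i' i0 h0 α} := fun z =>
    ⟨((piFinTwoEquiv fun j => Ax σ M (e j)).symm (z.1, z.2.1), fun _ => 0), by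
      have := hmem z.2.1 z.2.2
      exact this⟩
  have hf : Function.Injective f := by
    intro z z' hzz
    have h1 := congrArg (fun w => w.1.1) hzz
    have h2 : (z.1, z.2.1) = (z'.1, z'.2.1) := (piFinTwoEquiv fun j => Ax σ M (e j)).symm.injective h1
    have h3 := congrArg Prod.fst h2
    have h4 := congrArg Prod.snd h2
    exact Prod.ext h3 (Subtype.ext h4)
  have hcard := Nat.card_le_card_of_injective f hf
  rw [Nat.card_prod, card_Ax] at hcard
  have hcS : Nat.card S = ∏ i, ((T i).card * (M + 1)) := by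
    rw [Nat.card_eq_fintype_card, Fintype.card_coe, hS, Fintype.card_piFinset]
    refine Finset.prod_congr rfl fun i _ => ?_
    rw [Finset.card_product, Finset.card_univ, Fintype.card_fin]
  have hc0 : 1 ≤ (T i').card := by
    rw [hT]
    simp only [if_true]
    refine Finset.card_pos.2 ⟨⟨0, by rw [← hq]; omega⟩, ?_⟩
    simp
  have hci0 : q ≤ (T i0).card * h0 := by
    obtain ⟨a, ha⟩ : ∃ a, a = (q + h0 - 1) / h0 := ⟨_, rfl⟩
    have ha1 : q ≤ a * h0 := by
      have := Nat.div_add_mod (q + h0 - 1) h0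
      rw [← ha] at this
      have h2 := Nat.mod_lt (q + h0 - 1) (show 0 < h0 by omega)
      nlinarith [Nat.sub_add_cancel (show 1 ≤ q + h0 by omega)]
    have ha2 : ∀ l, l < a → l * h0 < q := by
      intro l hl
      have h1 : a * h0 ≤ q + h0 - 1 := by
        rw [ha]
        exact Nat.div_mul_le_self _ _
      have h2 : (l + 1) * h0 ≤ a * h0 := Nat.mul_le_mul_right _ hl
      have h3 : (l + 1) * h0 = l * h0 + h0 := by ring
      omega
    have ha3 : a ≤ (T i0).card := by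
      have hlt : ∀ l, l < a → l < 4 ^ e 1 := by
        intro l hl
        have := ha2 l hl
        rw [← hq]
        nlinarith
      have h1 : (Finset.univ : Finset (Fin a)).card ≤ (T i0).card := by
        refine Finset.card_le_card_of_injOn (fun l => (⟨l.val, hlt l.val l.2⟩ : Fin (4 ^ e 1)))
          ?_ ?_
        · intro l _
          rw [hT]
          simp only [hne, if_false, if_true, Finset.coe_filter, Finset.mem_univ, true_and,
            Set.mem_setOf_eq]
          rw [← hq]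
          exact ha2 l.val l.2
        · intro l _ l' _ hll
          have := congrArg Fin.val hll
          exact Fin.ext this
      rw [Finset.card_univ, Fintype.card_fin] at h1
      exact h1
    exact ha1.trans (Nat.mul_le_mul_right _ ha3)
  have hcr : ∀ i, i ≠ i' → i ≠ i0 → (T i).card = q := by
    intro i h1 h2
    rw [hT]
    simp only [h1, h2, if_false, Finset.card_univ, Fintype.card_fin]
    exact hq.symm
  have hprod : q ^ (Fintype.card σ - 1) ≤ (∏ i, (T i).card) * h0 := by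
    have h1 : ∏ i, (T i).card = (T i').card * ∏ i ∈ Finset.univ.erase i', (T i).card :=
      (Finset.mul_prod_erase Finset.univ (fun i => (T i).card) (Finset.mem_univ i')).symm
    have h2 : ∏ i ∈ Finset.univ.erase i', (q : ℕ) ≤
        ∏ i ∈ Finset.univ.erase i', ((T i).card * if i = i0 then h0 else 1) := by
      refine Finset.prod_le_prod' fun i hi => ?_
      have hi1 := Finset.ne_of_mem_erase hi
      by_cases h : i = i0
      · rw [if_pos h, h]
        exact hci0
      · rw [if_neg h, hcr i hi1 h, mul_one]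
    have h3 : ∏ i ∈ Finset.univ.erase i', (if i = i0 then h0 else 1) = h0 := by
      rw [Finset.prod_ite_eq']
      rw [if_pos (Finset.mem_erase.2 ⟨hne, Finset.mem_univ _⟩)]
    rw [Finset.prod_const, Finset.card_erase_of_mem (Finset.mem_univ _), Finset.card_univ,
      Finset.prod_mul_distrib, h3] at h2
    rw [h1]
    calc q ^ (Fintype.card σ - 1) ≤ (∏ i ∈ Finset.univ.erase i', (T i).card) * h0 := h2
      _ ≤ (T i').card * (∏ i ∈ Finset.univ.erase i', (T i).card) * h0 := by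
          refine Nat.mul_le_mul_right _ ?_
          exact Nat.le_mul_of_pos_left _ hc0
  rw [hcS, Finset.prod_mul_distrib, Finset.prod_const, Finset.card_univ] at hcard
  rw [← hq]
  calc (4 ^ e 0 * (M + 1)) ^ Fintype.card σ * ((M + 1) ^ Fintype.card σ * q ^ (Fintype.card σ - 1))
      ≤ (4 ^ e 0 * (M + 1)) ^ Fintype.card σ * ((M + 1) ^ Fintype.card σ *
        ((∏ i, (T i).card) * h0)) := by
        exact Nat.mul_le_mul_left _ (Nat.mul_le_mul_left _ hprod)
    _ = (4 ^ e 0 * (M + 1)) ^ Fintype.card σ * ((∏ i, (T i).card) * (M + 1) ^ Fintype.card σ) *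
        h0 := by ring
    _ ≤ _ := Nat.mul_le_mul_right _ hcard

theorem t_CARD3 : Pool.Agent.Helper68.T3.CARD3 := by
  intro σ _ _ M k0 p c D0 h0 S0 i' i0 e T0 _ gr U2 U _ _ hne hh hp hbad hU2 hU hmain
  obtain ⟨m, hm⟩ : ∃ m, m = Fintype.card σ := ⟨_, rfl⟩
  rw [← hm] at hp hbad hU2 hmain
  have hR : Nat.card (Rows3 σ k0 (4 ^ e 0) T0 gr U2 U) = 16 ^ m *
      (Nat.card {t : T0 // gr t < k0 * 4 ^ e 0} * (Fintype.card U2 * Fintype.card U)) := by
    unfold Rows3
    rw [Nat.card_prod, Nat.card_prod, Nat.card_prod, Nat.card_prod, Nat.card_eq_fintype_card (α := U2),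
      Nat.card_eq_fintype_card (α := U), Nat.card_eq_fintype_card (α := Fin 2 → σ → Bool),
      Nat.card_eq_fintype_card (α := Fin 2 → σ → Fin 2)]
    simp only [Fintype.card_pi, Finset.prod_const, Finset.card_univ, Fintype.card_fin,
      Fintype.card_bool]
    rw [← hm, show (16 : ℕ) = (2 ^ 2) * (2 ^ 2) by norm_num, mul_pow, ← pow_mul, ← pow_mul,
      mul_comm 2 m]
    ring
  have hunk := card_unk M h0 i' i0 e hne hh
  rw [← hm] at hunk
  obtain ⟨q0, hq0⟩ : ∃ q0, q0 = 4 ^ e 0 := ⟨_, rfl⟩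
  obtain ⟨q1, hq1⟩ : ∃ q1, q1 = 4 ^ e 1 := ⟨_, rfl⟩
  have hq1' : 1 ≤ q1 := by
    rw [hq1]
    exact Nat.one_le_pow _ _ (by norm_num)
  have hN0 := N0_le M (e 0)
  have hN1 := N0_le M (e 1)
  rw [← hq0] at hN0 hunk hbad
  rw [← hq1] at hN1 hunk
  rw [← hq0] at hR ⊢
  have e1 : (N0 M (e 0) + 1) ^ (m - p) ≤ q0 ^ (m - p) * (2 * M + 2) ^ (m - p) := by
    rw [← mul_pow]
    exact Nat.pow_le_pow_left hN0 _
  have e2 : Nat.card {t : T0 // gr t < k0 * q0} ≤ c * k0 ^ p * (2 * M + 2) ^ (m - p) * q0 ^ m := by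
    refine hbad.trans ?_
    refine (Nat.mul_le_mul_left _ e1).trans (le_of_eq ?_)
    have : q0 ^ m = q0 ^ p * q0 ^ (m - p) := by
      rw [← pow_add]
      congr 1
      omega
    rw [this, mul_pow]
    ring
  have e3 : Fintype.card U2 ≤ (D0 + 1) * ((2 * M + 2) * (1 + D0)) ^ (m - 1) * q1 ^ (m - 1) := by
    refine hU2.trans ?_
    rw [mul_assoc, ← mul_pow]
    refine Nat.mul_le_mul_left _ (Nat.pow_le_pow_left ?_ _)
    nlinarith
  have e4 : Nat.card {t : T0 // gr t < k0 * q0} * (Fintype.card U2 * Fintype.card U) ≤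
      (c * k0 ^ p * (2 * M + 2) ^ (m - p) * q0 ^ m) *
        ((D0 + 1) * ((2 * M + 2) * (1 + D0)) ^ (m - 1) * q1 ^ (m - 1) * S0) :=
    Nat.mul_le_mul e2 (Nat.mul_le_mul e3 hU)
  refine Nat.le_of_mul_le_mul_right (c := h0) ?_ (by omega)
  rw [hR]
  calc 2 * (16 ^ m * (Nat.card {t : T0 // gr t < k0 * q0} * (Fintype.card U2 * Fintype.card U))) * h0
      ≤ 2 * (16 ^ m * ((c * k0 ^ p * (2 * M + 2) ^ (m - p) * q0 ^ m) *
        ((D0 + 1) * ((2 * M + 2) * (1 + D0)) ^ (m - 1) * q1 ^ (m - 1) * S0))) * h0 := by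
        refine Nat.mul_le_mul_right _ (Nat.mul_le_mul_left _ (Nat.mul_le_mul_left _ e4))
    _ = (2 * 16 ^ m * c * k0 ^ p * (2 * M + 2) ^ (m - p) * (D0 + 1) *
        ((2 * M + 2) * (1 + D0)) ^ (m - 1) * S0 * h0) * (q0 ^ m * q1 ^ (m - 1)) := by ring
    _ ≤ (M + 1) ^ (2 * m) * (q0 ^ m * q1 ^ (m - 1)) := Nat.mul_le_mul_right _ hmain
    _ = (q0 * (M + 1)) ^ m * ((M + 1) ^ m * q1 ^ (m - 1)) := by
        rw [mul_pow, two_mul, pow_add]
        ring
    _ ≤ _ := hunk

end Pool.Agent.Helper32.T3.CARD3
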