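import Pool.Agent.Helper47.T3.Goals

/-!
# Packet FLG-T3P: pinching in the quaternionic frame
-/

set_option autoImplicit false

namespace Pool.Agent.Helper32.T3

open Finset

theorem slot (F : Fin 4 → Fin 4 → Fin 4 → Fin 4 → Fin 3 → ℝ) (u : Fin 3 → ℝ) :
    (∑ a, ∑ b, ∑ c, ∑ d, ∑ i, F a b c d i * u i) = ∑ i, (∑ a, ∑ b, ∑ c, ∑ d, F a b c d i) * u i := by
  simp only [Finset.sum_mul]
  symm
  rw [Finset.sum_comm]
  refine Finset.sum_congr rfl fun a _ => ?_
  rw [Finset.sum_comm]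
  refine Finset.sum_congr rfl fun b _ => ?_
  rw [Finset.sum_comm]
  refine Finset.sum_congr rfl fun c _ => ?_
  rw [Finset.sum_comm]

theorem aux0 (r : ℝ) (f g : Fin 3 → ℝ) : r * (∑ i, f i * g i) = ∑ i, r * g i * f i := by
  rw [Finset.mul_sum]
  exact Finset.sum_congr rfl fun i _ => by ring

theorem aux1 (r Z : ℝ) (f g : Fin 3 → ℝ) : r * (∑ i, f i * g i) * Z = ∑ i, r * g i * Z * f i := by
  rw [Finset.mul_sum, Finset.sum_mul]
  exact Finset.sum_congr rfl fun i _ => by ring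

theorem aux2 (r W Z : ℝ) (f g : Fin 3 → ℝ) :
    r * (∑ i, f i * g i) * W * Z = ∑ i, r * g i * W * Z * f i := by
  rw [Finset.mul_sum, Finset.sum_mul, Finset.sum_mul]
  exact Finset.sum_congr rfl fun i _ => by ring

theorem aux3 (r V W Z : ℝ) (f g : Fin 3 → ℝ) :
    r * (∑ i, f i * g i) * V * W * Z = ∑ i, r * g i * V * W * Z * f i := by
  rw [Finset.mul_sum, Finset.sum_mul, Finset.sum_mul, Finset.sum_mul]
  exact Finset.sum_congr rfl fun i _ => by ring

/-- contraction of a tensor with four vectors which are linear combinations -/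
theorem tens4 (R : Fin 4 → Fin 4 → Fin 4 → Fin 4 → ℝ) (X : Fin 3 → Fin 4 → ℝ)
    (u v w z : Fin 3 → ℝ) :
    (∑ a, ∑ b, ∑ c, ∑ d, R a b c d * (∑ i, u i * X i a) * (∑ j, v j * X j b) *
      (∑ k, w k * X k c) * (∑ l, z l * X l d)) =
    ∑ i, ∑ j, ∑ k, ∑ l, (∑ a, ∑ b, ∑ c, ∑ d, R a b c d * X i a * X j b * X k c * X l d) *
      u i * v j * w k * z l := by
  have h1 : (∑ a, ∑ b, ∑ c, ∑ d, R a b c d * (∑ i, u i * X i a) * (∑ j, v j * X j b) *
      (∑ k, w k * X k c) * (∑ l, z l * X l d)) =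
      ∑ i, (∑ a, ∑ b, ∑ c, ∑ d, R a b c d * X i a * (∑ j, v j * X j b) *
      (∑ k, w k * X k c) * (∑ l, z l * X l d)) * u i := by
    rw [← slot (fun a b c d i => R a b c d * X i a * (∑ j, v j * X j b) *
      (∑ k, w k * X k c) * (∑ l, z l * X l d)) u]
    refine Finset.sum_congr rfl fun a _ => Finset.sum_congr rfl fun b _ =>
      Finset.sum_congr rfl fun c _ => Finset.sum_congr rfl fun d _ => ?_
    exact aux3 _ _ _ _ _ _
  have h2 : ∀ i, (∑ a, ∑ b, ∑ c, ∑ d, R a b c d * X i a * (∑ j, v j * X j b) *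
      (∑ k, w k * X k c) * (∑ l, z l * X l d)) =
      ∑ j, (∑ a, ∑ b, ∑ c, ∑ d, R a b c d * X i a * X j b *
      (∑ k, w k * X k c) * (∑ l, z l * X l d)) * v j := by
    intro i
    rw [← slot (fun a b c d j => R a b c d * X i a * X j b *
      (∑ k, w k * X k c) * (∑ l, z l * X l d)) v]
    refine Finset.sum_congr rfl fun a _ => Finset.sum_congr rfl fun b _ =>
      Finset.sum_congr rfl fun c _ => Finset.sum_congr rfl fun d _ => ?_
    exact aux2 _ _ _ _ _
  have h3 : ∀ i j, (∑ a, ∑ b, ∑ c, ∑ d, R a b c d * X i a * X j b *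
      (∑ k, w k * X k c) * (∑ l, z l * X l d)) =
      ∑ k, (∑ a, ∑ b, ∑ c, ∑ d, R a b c d * X i a * X j b * X k c *
        (∑ l, z l * X l d)) * w k := by
    intro i j
    rw [← slot (fun a b c d k => R a b c d * X i a * X j b * X k c * (∑ l, z l * X l d)) w]
    refine Finset.sum_congr rfl fun a _ => Finset.sum_congr rfl fun b _ =>
      Finset.sum_congr rfl fun c _ => Finset.sum_congr rfl fun d _ => ?_
    exact aux1 _ _ _ _
  have h4 : ∀ i j k, (∑ a, ∑ b, ∑ c, ∑ d, R a b c d * X i a * X j b * X k c *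
        (∑ l, z l * X l d)) =
      ∑ l, (∑ a, ∑ b, ∑ c, ∑ d, R a b c d * X i a * X j b * X k c * X l d) * z l := by
    intro i j k
    rw [← slot (fun a b c d l => R a b c d * X i a * X j b * X k c * X l d) z]
    refine Finset.sum_congr rfl fun a _ => Finset.sum_congr rfl fun b _ =>
      Finset.sum_congr rfl fun c _ => Finset.sum_congr rfl fun d _ => ?_
    exact aux0 _ _ _
  rw [h1]
  refine Finset.sum_congr rfl fun i _ => ?_
  rw [h2, Finset.sum_mul]
  refine Finset.sum_congr rfl fun j _ => ?_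
  rw [h3, Finset.sum_mul, Finset.sum_mul]
  refine Finset.sum_congr rfl fun k _ => ?_
  rw [h4, Finset.sum_mul, Finset.sum_mul, Finset.sum_mul]
  refine Finset.sum_congr rfl fun l _ => ?_
  ring

theorem tens2 (G : Fin 4 → Fin 4 → ℝ) (X : Fin 3 → Fin 4 → ℝ) (u v : Fin 3 → ℝ) :
    (∑ a, ∑ b, G a b * (∑ i, u i * X i a) * (∑ j, v j * X j b)) =
    ∑ i, ∑ j, (∑ a, ∑ b, G a b * X i a * X j b) * u i * v j := by
  have h1 : ∀ (F : Fin 4 → Fin 4 → Fin 3 → ℝ) (u : Fin 3 → ℝ),
      (∑ a, ∑ b, ∑ i, F a b i * u i) = ∑ i, (∑ a, ∑ b, F a b i) * u i := by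
    intro F u
    simp only [Finset.sum_mul]
    symm
    rw [Finset.sum_comm]
    refine Finset.sum_congr rfl fun a _ => ?_
    rw [Finset.sum_comm]
  have h2 : (∑ a, ∑ b, G a b * (∑ i, u i * X i a) * (∑ j, v j * X j b)) =
      ∑ i, (∑ a, ∑ b, G a b * X i a * (∑ j, v j * X j b)) * u i := by
    rw [← h1 (fun a b i => G a b * X i a * (∑ j, v j * X j b)) u]
    refine Finset.sum_congr rfl fun a _ => Finset.sum_congr rfl fun b _ => ?_
    exact aux1 _ _ _ _
  have h3 : ∀ i, (∑ a, ∑ b, G a b * X i a * (∑ j, v j * X j b)) =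
      ∑ j, (∑ a, ∑ b, G a b * X i a * X j b) * v j := by
    intro i
    rw [← h1 (fun a b j => G a b * X i a * X j b) v]
    refine Finset.sum_congr rfl fun a _ => Finset.sum_congr rfl fun b _ => ?_
    exact aux0 _ _ _
  rw [h2]
  refine Finset.sum_congr rfl fun i _ => ?_
  rw [h3, Finset.sum_mul]
  refine Finset.sum_congr rfl fun j _ => ?_
  ring

end Pool.Agent.Helper32.T3

namespace Pool.Agent.Helper47.T3

open Finset Pool.Agent.Helper73

theorem t_T3P (hT3A : A_T3A) (hT3R : A_T3R) : A_T3P := by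
  intro M δ x hx hP u v u' v' huv huv'
  obtain ⟨hA1, -, -, -, -, -, -, -, hA9⟩ := hT3A
  have hx0 : x ≠ 0 := by
    intro h
    rw [h, norm_zero] at hx
    exact zero_ne_one hx
  -- the injective linear map
  let φ : (Fin 3 → ℝ) →ₗ[ℝ] (Fin (3 + 1) → ℝ) :=
    { toFun := fun v a => ∑ i, v i * qv i x a
      map_add' := by
        intro p q
        funext a
        simp only [Pi.add_apply, add_mul, Finset.sum_add_distrib]
      map_smul' := by
        intro r p
        funext a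
        simp only [Pi.smul_apply, smul_eq_mul, RingHom.id_apply, Finset.mul_sum, mul_assoc] }
  have hφ : ∀ v a, φ v a = ∑ i, v i * qv i x a := fun v a => rfl
  have hinj : Function.Injective φ := by
    intro p q hpq
    rw [← (hA9 x hx p).2, ← (hA9 x hx q).2]
    have : (fun a => ∑ i, p i * qv i x a) = (fun a => ∑ i, q i * qv i x a) := hpq
    rw [this]
  have hli : ∀ p q : Fin 3 → ℝ, LinearIndependent ℝ ![p, q] → LinearIndependent ℝ ![φ p, φ q] := by
    intro p q h
    have h1 := h.map' φ (LinearMap.ker_eq_bot.mpr hinj)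
    have h2 : ![φ p, φ q] = φ ∘ ![p, q] := by
      funext i
      fin_cases i <;> rfl
    rw [h2]; exact h1
  have hcurv : ∀ p q : Fin 3 → ℝ,
      SN.curv (SN.cyl M.G) x (φ p) (φ q) = TS.curv (g3 M.G) (TS.toQ x) p q := by
    intro p q
    unfold SN.curv TS.curv
    have h := Pool.Agent.Helper32.T3.tens4 (fun a b c d => SN.Rm (SN.cyl M.G) a b c d x)
      (fun i a => qv i x a) p q q p
    refine (Eq.trans ?_ h).trans ?_
    · rfl
    · refine Finset.sum_congr rfl fun i _ => Finset.sum_congr rfl fun j _ =>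
        Finset.sum_congr rfl fun k _ => Finset.sum_congr rfl fun l _ => ?_
      rw [← hT3R M x hx0 i j k l]
  have hip : ∀ p q : Fin 3 → ℝ,
      SN.ip (SN.cyl M.G) x (φ p) (φ q) = TS.ip (g3 M.G) (TS.toQ x) p q := by
    intro p q
    unfold SN.ip TS.ip
    have h := Pool.Agent.Helper32.T3.tens2 (fun a b => SN.cyl M.G x a b)
      (fun i a => qv i x a) p q
    refine (Eq.trans ?_ h).trans ?_
    · rfl
    · refine Finset.sum_congr rfl fun i _ => Finset.sum_congr rfl fun j _ => ?_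
      have h1 : g3 M.G (TS.toQ x) i j = ∑ a, ∑ b, SN.cyl M.G x a b * qv i x a * qv j x b := by
        change SN.ip M.G (ofQ (TS.toQ x)) (fun a => qv i (ofQ (TS.toQ x)) a)
          (fun a => qv j (ofQ (TS.toQ x)) a) / ‖TS.toQ x‖ ^ 2 = _
        rw [(hA1 x).1, (hA1 x).2, hx]
        unfold SN.ip SN.cyl
        rw [hx]
        norm_num
      rw [h1]
  have har : ∀ p q : Fin 3 → ℝ,
      SN.ar (SN.cyl M.G) x (φ p) (φ q) = TS.ar (g3 M.G) (TS.toQ x) p q := by
    intro p q
    unfold SN.ar TS.ar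
    rw [hip, hip, hip]
  have hsec : ∀ p q : Fin 3 → ℝ,
      SN.sec (SN.cyl M.G) x (φ p) (φ q) = TS.sec (g3 M.G) (TS.toQ x) p q := by
    intro p q
    unfold SN.sec TS.sec
    rw [hcurv, har]
  have h := hP (φ u) (φ v) (φ u') (φ v') (hA9 x hx u).1 (hA9 x hx v).1 (hA9 x hx u').1
    (hA9 x hx v').1 (hli u v huv) (hli u' v' huv')
  rw [hsec, hsec] at h
  exact h

end Pool.Agent.Helper47.T3
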